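import Pool.Agent.Lib.MP_132384_an.Comb

open Cardinal Set

namespace Pool.Agent.Lib.MP_132384_an

theorem single_block {K : Type} [LinearOrder K] [WellFoundedLT K]
    (hseq : ∀ s : Set K, s.Countable → ∃ u, ∀ x ∈ s, x < u)
    (S : Set K) (hS : ∀ x : K, ∃ b, x < b ∧ b ∈ S)
    (D : K → Set (WithTop K)) (hD : ∀ b, ∃ u : K, ∀ y ∈ D b, y = ⊤ ∨ y < (u : WithTop K))
    (x : K) :
    ∃ (α : K) (a : ℕ → K), (∀ n, x < a n) ∧ (∀ n, a n ∈ S) ∧ StrictMono a ∧ (∀ n, a n < α) ∧
      (∀ c, c < α → ∃ N, ∀ n ≥ N, c ≤ a n) ∧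
      (∀ n, ∀ y ∈ D (a n), y = ⊤ ∨ y < (α : WithTop K)) := by
  classical
  choose p hp1 hp2 using hS
  choose u hu using hD
  let a : ℕ → K := fun n => Nat.rec (p x) (fun _ y => p (max y (u y))) n
  have ha0 : a 0 = p x := rfl
  have has : ∀ n, a (n + 1) = p (max (a n) (u (a n))) := fun n => rfl
  have hstep : ∀ n, max (a n) (u (a n)) < a (n + 1) := fun n => by rw [has]; exact hp1 _
  have hmono : StrictMono a := strictMono_nat_of_lt_succ fun n =>
    (le_max_left _ _).trans_lt (hstep n)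
  obtain ⟨α, hα1, hα2⟩ := exists_lsub (Set.range a) (hseq _ (Set.countable_range a))
  refine ⟨α, a, ?_, ?_, hmono, fun n => hα1 _ ⟨n, rfl⟩, ?_, ?_⟩
  · intro n
    have h0 : x < a 0 := by rw [ha0]; exact hp1 _
    exact h0.trans_le (hmono.monotone (Nat.zero_le n))
  · intro n
    cases n with
    | zero => rw [ha0]; exact hp2 _
    | succ n => rw [has]; exact hp2 _
  · intro c hc
    obtain ⟨_, ⟨N, rfl⟩, hN⟩ := hα2 c hc
    exact ⟨N, fun n hn => hN.trans (hmono.monotone hn)⟩
  · intro n y hy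
    rcases hu (a n) y hy with h | h
    · exact Or.inl h
    · right
      have h1 : u (a n) < α :=
        (le_max_right _ _).trans_lt ((hstep n).trans (hα1 _ ⟨n + 1, rfl⟩))
      exact h.trans (WithTop.coe_lt_coe.2 h1)

theorem block {K : Type} [LinearOrder K] [WellFoundedLT K]
    (hseq : ∀ s : Set K, s.Countable → ∃ u, ∀ x ∈ s, x < u)
    (S : Set K) (hS : ∀ x : K, ∃ b, x < b ∧ b ∈ S)
    (D : K → Set (WithTop K)) (hD : ∀ b, ∃ u : K, ∀ y ∈ D b, y = ⊤ ∨ y < (u : WithTop K))
    (δ : K) (hδ : ∀ a ∈ S, ∀ y ∈ D a, y < (a : WithTop K) → y < (δ : WithTop K)) :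
    ∃ (α : ℕ → K) (a : ℕ → ℕ → K),
      (∀ i n, a i n ∈ S) ∧
      (∀ i n, ∀ c ∈ D (a i n), c = ⊤ ∨ (∀ i', ¬ (α i' : WithTop K) ≤ c) ∨
        (∀ i', (α i' : WithTop K) ≤ c ↔ i' < i)) ∧
      (∀ i (c : WithTop K), (α i : WithTop K) ≤ c → ∀ n, (a i n : WithTop K) < c) ∧
      (∀ i (c : WithTop K), ¬ (α i : WithTop K) ≤ c → ∃ N, ∀ n ≥ N, ¬ ((a i n : WithTop K) < c)) ∧
      StrictMono α := by
  classical
  choose A a h1 h2 h3 h4 h5 h6 using single_block hseq S hS D hD
  let x : ℕ → K := fun n => Nat.rec δ (fun _ y => A y) n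
  have hx0 : x 0 = δ := rfl
  have hxs : ∀ n, x (n + 1) = A (x n) := fun n => rfl
  have hlt : ∀ y, y < A y := fun y => (h1 y 0).trans (h4 y 0)
  have hxm : StrictMono x := strictMono_nat_of_lt_succ fun n => by rw [hxs]; exact hlt _
  have hAm : StrictMono (fun i => A (x i)) := by
    intro i j hij
    show A (x i) < A (x j)
    rw [← hxs, ← hxs]
    exact hxm (Nat.succ_lt_succ hij)
  refine ⟨fun i => A (x i), fun i n => a (x i) n, fun i n => h2 _ n, ?_, ?_, ?_, hAm⟩
  · intro i n c hc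
    by_cases hct : c = ⊤
    · exact Or.inl hct
    right
    have hcA : c < (A (x i) : WithTop K) := by
      rcases h6 (x i) n c hc with h | h
      · exact absurd h hct
      · exact h
    by_cases hca : c < (a (x i) n : WithTop K)
    · left
      intro i' hle
      have hcδ := hδ _ (h2 (x i) n) c hc hca
      have : (δ : WithTop K) < (A (x i') : WithTop K) := by
        apply WithTop.coe_lt_coe.2
        rw [← hxs, ← hx0]
        exact hxm (Nat.succ_pos _)
      exact absurd (this.trans_le hle) (not_lt.2 hcδ.le)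
    · right
      intro i'
      push Not at hca
      constructor
      · intro hle
        by_contra hcon
        push Not at hcon
        have : (A (x i) : WithTop K) ≤ (A (x i') : WithTop K) :=
          WithTop.coe_le_coe.2 (hAm.monotone hcon)
        exact absurd (hcA.trans_le (this.trans hle)) (lt_irrefl _)
      · intro hii
        have h7 : A (x i') ≤ x i := by
          rw [← hxs]
          exact hxm.monotone hii
        have h8 : A (x i') < a (x i) n := h7.trans_lt (h1 (x i) n)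
        exact (WithTop.coe_lt_coe.2 h8).le.trans hca
  · intro i c hc n
    exact (WithTop.coe_lt_coe.2 (h4 (x i) n)).trans_le hc
  · intro i c hc
    push Not at hc
    lift c to K using (ne_top_of_lt hc)
    obtain ⟨N, hN⟩ := h5 (x i) c (WithTop.coe_lt_coe.1 hc)
    exact ⟨N, fun n hn => not_lt.2 (WithTop.coe_le_coe.2 (hN n hn))⟩

end Pool.Agent.Lib.MP_132384_an
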