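import Mathlib

open Cardinal Set

namespace Pool.Agent.Lib.MP_132384_an

/-- every subset of cardinality at most `lam` is strictly bounded above -/
def SBdd (K : Type) [LinearOrder K] (lam : Cardinal.{0}) : Prop :=
  ∀ s : Set K, #s ≤ lam → ∃ u : K, ∀ x ∈ s, x < u

theorem sbdd_toType (lam : Cardinal.{0}) (h : ℵ₀ ≤ lam) :
    SBdd (Order.succ lam).ord.ToType lam := by
  intro s hs
  have hreg := Cardinal.isRegular_succ h
  have hcof : Order.cof (Order.succ lam).ord.ToType = Order.succ lam := by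
    rw [Ordinal.cof_toType, hreg.cof_ord]
  have hnc : ¬ IsCofinal s := by
    intro hc
    have := Order.cof_le hc
    rw [hcof] at this
    exact absurd (this.trans hs) (not_le.2 (Order.lt_succ lam))
  unfold IsCofinal at hnc
  push Not at hnc
  obtain ⟨u, hu⟩ := hnc
  exact ⟨u, fun x hx => hu x hx⟩

theorem SBdd.mono {K : Type} [LinearOrder K] {lam mu : Cardinal.{0}} (h : SBdd K lam)
    (hm : mu ≤ lam) : SBdd K mu := fun s hs => h s (hs.trans hm)

theorem SBdd.range {K : Type} [LinearOrder K] {lam : Cardinal.{0}} (h : SBdd K lam)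
    {ι : Type} (hι : #ι ≤ lam) (f : ι → K) : ∃ u, ∀ i, f i < u := by
  obtain ⟨u, hu⟩ := h (Set.range f) (Cardinal.mk_range_le.trans hι)
  exact ⟨u, fun i => hu _ ⟨i, rfl⟩⟩

/-- existence of an increasing family -/
theorem exists_incr {K L : Type} [LinearOrder K] [LinearOrder L] [WellFoundedLT L]
    {lam : Cardinal.{0}} (h : SBdd K lam) (hL : #L ≤ lam) (g : K → K) :
    ∃ b : L → K, ∀ η ξ, η < ξ → g (b η) < b ξ := by
  classical
  have key : ∀ (ξ : L) (f : (η : L) → η < ξ → K), ∃ u, ∀ (η : L) (hη : η < ξ), g (f η hη) < u := by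
    intro ξ f
    have := SBdd.range h (ι := {η : L // η < ξ})
      ((Cardinal.mk_le_of_injective Subtype.val_injective).trans hL)
      (fun η => g (f η.1 η.2))
    obtain ⟨u, hu⟩ := this
    exact ⟨u, fun η hη => hu ⟨η, hη⟩⟩
  choose F hF using key
  let b : L → K := (wellFounded_lt (α := L)).fix F
  have hb : ∀ ξ, b ξ = F ξ (fun η _ => b η) := fun ξ => WellFounded.fix_eq _ _ _
  refine ⟨b, fun η ξ hηξ => ?_⟩
  rw [hb ξ]
  exact hF ξ (fun η _ => b η) η hηξ

/-- least strict upper bound -/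
theorem exists_lsub {K : Type} [LinearOrder K] [WellFoundedLT K] (s : Set K)
    (hs : ∃ u, ∀ x ∈ s, x < u) :
    ∃ β, (∀ x ∈ s, x < β) ∧ ∀ y, y < β → ∃ x ∈ s, y ≤ x := by
  let T : Set K := {u | ∀ x ∈ s, x < u}
  have hT : T.Nonempty := hs
  refine ⟨(wellFounded_lt (α := K)).min T hT, (wellFounded_lt (α := K)).min_mem T hT, ?_⟩
  intro y hy
  by_contra hcon
  push Not at hcon
  exact (wellFounded_lt (α := K)).not_lt_min T (x := y) hcon hy

theorem pressing {K : Type} [LinearOrder K] [WellFoundedLT K] {lam nu : Cardinal.{0}}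
    (h : SBdd K lam) (hnu : ℵ₀ ≤ nu) (hnl : Order.succ nu ≤ lam)
    (D : K → Set K) (hD : ∀ b, #(D b) ≤ nu) {T : Type} (hT : #T ≤ lam) (t : K → T) :
    ∃ (δ : K) (τ : T), ∀ x : K, ∃ b, x < b ∧ t b = τ ∧ ∀ y ∈ D b, y < b → y < δ := by
  classical
  by_contra hcon
  push Not at hcon
  choose H hH using hcon
  have hg : ∀ δ, ∃ u, ∀ τ, H δ τ < u := fun δ => SBdd.range h hT (fun τ => H δ τ)
  choose g hg using hg
  have hgy : ∀ δ b, g δ < b → ∃ y ∈ D b, y < b ∧ δ ≤ y := fun δ b hb =>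
    hH δ (t b) b ((hg δ (t b)).trans hb) rfl
  let L := (Order.succ nu).ord.ToType
  have hLcard : #L = Order.succ nu := Cardinal.mk_ord_toType _
  have hLs : SBdd L nu := sbdd_toType nu hnu
  obtain ⟨b, hb⟩ := exists_incr (L := L) h (hLcard.le.trans hnl) (fun x => max x (g x))
  obtain ⟨β, hβ1, hβ2⟩ := exists_lsub (Set.range b)
    (h (Set.range b) (Cardinal.mk_range_le.trans (hLcard.le.trans hnl)))
  have hLne : Nonempty L := by
    obtain ⟨u, _⟩ := hLs ∅ (by simp)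
    exact ⟨u⟩
  -- for every y < β find ξ with y < b ξ
  have hx : ∀ y, y < β → ∃ ξ, y < b ξ := by
    intro y hy
    obtain ⟨x, ⟨ξ, rfl⟩, hyx⟩ := hβ2 y hy
    obtain ⟨ξ', hξ'⟩ := hLs {ξ} (by simpa using (Cardinal.one_le_aleph0.trans hnu))
    have h1 := hb ξ ξ' (hξ' ξ rfl)
    exact ⟨ξ', hyx.trans_lt ((le_max_left _ _).trans_lt h1)⟩
  choose! X hX using hx
  obtain ⟨ξ, hξ⟩ := SBdd.range hLs (ι := D β) (hD β) (fun y => X y.1)
  -- contradiction at ξ
  have h1 : g (b ξ) < β := by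
    obtain ⟨ξ', hξ'⟩ := hLs {ξ} (by simpa using (Cardinal.one_le_aleph0.trans hnu))
    exact (le_max_right _ _).trans_lt ((hb ξ ξ' (hξ' ξ rfl)).trans (hβ1 _ ⟨ξ', rfl⟩))
  obtain ⟨y, hyD, hyβ, hby⟩ := hgy (b ξ) β h1
  have h2 : y < b (X y) := hX y hyβ
  have h3 : X y < ξ := hξ ⟨y, hyD⟩
  have h4 := hb _ _ h3
  exact absurd (h2.trans ((le_max_left _ _).trans_lt h4)) (not_lt.2 hby)

end Pool.Agent.Lib.MP_132384_an
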