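import Mathlib

open Set

namespace Pool.Agent.Lib.MP_132384_an

variable {𝕜 : Type} [RCLike 𝕜] {X : Type} [NormedAddCommGroup X] [NormedSpace 𝕜 X]

/-- The weak-star closure of a set of functionals. -/
def weakStarClosure (A : Set (StrongDual 𝕜 X)) : Set (StrongDual 𝕜 X) :=
  {φ | StrongDual.toWeakDual φ ∈ closure (StrongDual.toWeakDual '' A)}

/-- The annihilator in the dual of a set of vectors. -/
def annih (𝕜 : Type) [RCLike 𝕜] {X : Type} [NormedAddCommGroup X] [NormedSpace 𝕜 X]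
    (S : Set X) : Set (StrongDual 𝕜 X) :=
  {φ | ∀ x ∈ S, φ x = 0}

/-- A subspace `D` of the dual is norming: the supremum of `‖φ x‖` over `φ ∈ D`, `‖φ‖ ≤ 1`, which
is always at most `‖x‖`, is at least `c * ‖x‖` for some constant `c > 0`. -/
def IsNorming (D : Submodule 𝕜 (StrongDual 𝕜 X)) : Prop :=
  ∃ c : ℝ, 0 < c ∧ ∀ x : X, c * ‖x‖ ≤ sSup {r : ℝ | ∃ φ ∈ D, ‖φ‖ ≤ 1 ∧ r = ‖φ x‖}

/-- `Φ(A)`, the union of the sets `Φ φ` with `φ ∈ A`. -/
def unionOf (Φ : StrongDual 𝕜 X → Set X) (A : Set (StrongDual 𝕜 X)) : Set X :=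
  {x | ∃ φ ∈ A, x ∈ Φ φ}

/-- `(D, Φ)` is a projectional generator on `X` (only the values of `Φ` on `D` matter). -/
structure IsProjGen (D : Submodule 𝕜 (StrongDual 𝕜 X)) (Φ : StrongDual 𝕜 X → Set X) : Prop where
  norming : IsNorming D
  countable : ∀ φ ∈ D, (Φ φ).Countable
  annih_closure : ∀ A : Set (StrongDual 𝕜 X), A ⊆ D →
    (∃ L : Submodule 𝕜 (StrongDual 𝕜 X), closure A = (L : Set (StrongDual 𝕜 X))) →
    annih 𝕜 (unionOf Φ A) ∩ weakStarClosure A = {0}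

end Pool.Agent.Lib.MP_132384_an
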