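import Pool.Agent.Lib.MP_132384_an.Main

open Set Filter Topology Cardinal

namespace Pool.Agent.Lib.MP_132384_an

variable {𝕜 : Type} [RCLike 𝕜] {X : Type} [NormedAddCommGroup X] [NormedSpace 𝕜 X]

theorem abstract_fail {I J : Type} [LinearOrder I] [WellFoundedLT I] [LinearOrder J]
    [WellFoundedLT J] (hI : ℵ₀ ≤ #I) (hI1 : SBdd I (Order.succ ℵ₀))
    (hJ : SBdd J (2 ^ #I))
    (ρ : WithTop I × WithTop J → X) (δ : I → J → StrongDual 𝕜 X)
    (hδ : ∀ a b, ‖δ a b‖ ≤ 1)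
    (hδ1 : ∀ (a : I) (b : J) c d, (a : WithTop I) < c → (b : WithTop J) < d → δ a b (ρ (c, d)) = 1)
    (hδ0 : ∀ (a : I) (b : J) c d, ¬ ((a : WithTop I) < c ∧ (b : WithTop J) < d) →
      δ a b (ρ (c, d)) = 0)
    (hspan : ∀ f : X, f ∈ closure (Submodule.span 𝕜 (Set.range ρ) : Set X))
    (Φ : StrongDual 𝕜 X → Set X) (hΦ : ∀ a b, (Φ (δ a b)).Countable) :
    ∃ M : Set (StrongDual 𝕜 X), (∀ φ ∈ M, ∃ a b, φ = δ a b) ∧
      ∃ x : StrongDual 𝕜 X, x ≠ 0 ∧ x ∈ annih 𝕜 (unionOf Φ M) ∧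
        x ∈ weakStarClosure (Submodule.span 𝕜 M : Set (StrongDual 𝕜 X)) := by
  classical
  have hC := fun a b => exists_countable_gen (𝕜 := 𝕜) ρ hspan (Φ (δ a b)) (hΦ a b)
  choose C hC1 hC2 using hC
  obtain ⟨α, a, β, b, hα, hβ, hcd, ha1, ha2, hb1, hb2⟩ := exists_blocks hI hI1 hJ C hC1
  let M : Set (StrongDual 𝕜 X) :=
    {φ | ∃ t n : ℕ, φ = δ (a (pp t) n) (b t n) ∨ φ = δ (a (qq t) n) (b t n)}
  -- the limit functionals
  have hL := fun i j => exists_limit (𝕜 := 𝕜) (X := X) (fun n => δ (a i n) (b j n))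
    (fun n => hδ _ _)
  choose L hL1 hL2 hL3 using hL
  have hLρ1 : ∀ i j c d, (α i : WithTop I) ≤ c → (β j : WithTop J) ≤ d → L i j (ρ (c, d)) = 1 :=
    fun i j c d hc hd => hL3 i j _ _ ⟨0, fun n _ => hδ1 _ _ _ _ (ha1 i c hc n) (hb1 j d hd n)⟩
  have hLρ0 : ∀ i j c d, ¬ ((α i : WithTop I) ≤ c ∧ (β j : WithTop J) ≤ d) →
      L i j (ρ (c, d)) = 0 := by
    intro i j c d hcd
    apply hL3 i j
    by_cases hc : (α i : WithTop I) ≤ c
    · have hd : ¬ (β j : WithTop J) ≤ d := fun hd => hcd ⟨hc, hd⟩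
      obtain ⟨N, hN⟩ := hb2 j d hd
      exact ⟨N, fun n hn => hδ0 _ _ _ _ fun h => hN n hn h.2⟩
    · obtain ⟨N, hN⟩ := ha2 i c hc
      exact ⟨N, fun n hn => hδ0 _ _ _ _ fun h => hN n hn h.1⟩
  have hLp : ∀ t, L (pp t) t ∈ weakStarClosure (Submodule.span 𝕜 M : Set (StrongDual 𝕜 X)) := by
    intro t
    refine weakStarClosure_mono ?_ (hL2 (pp t) t)
    rintro _ ⟨n, rfl⟩
    exact Submodule.subset_span ⟨t, n, Or.inl rfl⟩
  have hLq : ∀ t, L (qq t) t ∈ weakStarClosure (Submodule.span 𝕜 M : Set (StrongDual 𝕜 X)) := by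
    intro t
    refine weakStarClosure_mono ?_ (hL2 (qq t) t)
    rintro _ ⟨n, rfl⟩
    exact Submodule.subset_span ⟨t, n, Or.inr rfl⟩
  let g : ℕ → StrongDual 𝕜 X := fun t => (cc t : 𝕜) • (L (pp t) t - L (qq t) t)
  have hgn : ∀ t, ‖g t‖ ≤ 2 * cc t := by
    intro t
    show ‖(cc t : 𝕜) • (L (pp t) t - L (qq t) t)‖ ≤ 2 * cc t
    rw [norm_smul, RCLike.norm_ofReal, abs_of_nonneg (cc_nonneg t)]
    have : ‖L (pp t) t - L (qq t) t‖ ≤ 2 := by
      refine (norm_sub_le _ _).trans ?_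
      have h1 := hL1 (pp t) t
      have h2 := hL1 (qq t) t
      linarith
    nlinarith [cc_nonneg t]
  have hgs : Summable g := Summable.of_norm_bounded (summable_cc.mul_left 2) hgn
  obtain ⟨x, hx⟩ := hgs
  have hxM : x ∈ weakStarClosure (Submodule.span 𝕜 M : Set (StrongDual 𝕜 X)) :=
    tsum_mem M g (fun t => wsc_smul M _ _ (wsc_sub M _ _ (hLp t) (hLq t))) x hx
  have hxe : ∀ f : X, HasSum (fun t => (cc t : 𝕜) * (L (pp t) t f - L (qq t) t f)) (x f) := by
    intro f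
    have := hx.mapL (ContinuousLinearMap.apply 𝕜 𝕜 f)
    simpa [g] using this
  -- value zero
  have hzero : ∀ (s : ℕ) (i : ℕ) c d, (i = pp s ∨ i = qq s) →
      (c = ⊤ ∨ (∀ i', ¬ (α i' : WithTop I) ≤ c) ∨ (∀ i', (α i' : WithTop I) ≤ c ↔ i' < i)) →
      (d = ⊤ ∨ (∀ j', ¬ (β j' : WithTop J) ≤ d) ∨ (∀ j', (β j' : WithTop J) ≤ d ↔ j' < s)) →
      x (ρ (c, d)) = 0 := by
    intro s i c d hi hc hd
    refine (hxe (ρ (c, d))).unique ?_
    rcases hc with hc | hc | hc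
    · -- c = ⊤
      have h1 : ∀ t, L (pp t) t (ρ (c, d)) = L (qq t) t (ρ (c, d)) := by
        intro t
        by_cases hd' : (β t : WithTop J) ≤ d
        · rw [hLρ1 _ _ _ _ (by rw [hc]; exact le_top) hd',
            hLρ1 _ _ _ _ (by rw [hc]; exact le_top) hd']
        · rw [hLρ0 _ _ _ _ (fun h => hd' h.2), hLρ0 _ _ _ _ (fun h => hd' h.2)]
      simp only [h1, sub_self, mul_zero]
      exact hasSum_zero
    · have h1 : ∀ i' t, L i' t (ρ (c, d)) = 0 := fun i' t => hLρ0 _ _ _ _ fun h => hc i' h.1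
      simp only [h1, sub_self, mul_zero]
      exact hasSum_zero
    · rcases hd with hd | hd | hd
      · have h1 : ∀ i' t, L i' t (ρ (c, d)) = ((ind i' i : ℝ) : 𝕜) := by
          intro i' t
          unfold ind
          by_cases h : i' < i
          · rw [if_pos h, hLρ1 _ _ _ _ ((hc i').2 h) (by rw [hd]; exact le_top)]
            simp
          · rw [if_neg h, hLρ0 _ _ _ _ (fun h' => h ((hc i').1 h'.1))]
            simp
        have h2 := hasSum_col i
        have h3 : HasSum (fun t => ((cc t * (ind (pp t) i - ind (qq t) i) : ℝ) : 𝕜)) ((0 : ℝ) : 𝕜) :=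
          (RCLike.hasSum_ofReal 𝕜).2 h2
        simp only [h1]
        simpa using h3
      · have h1 : ∀ i' t, L i' t (ρ (c, d)) = 0 := fun i' t => hLρ0 _ _ _ _ fun h => hd t h.2
        simp only [h1, sub_self, mul_zero]
        exact hasSum_zero
      · have h1 : ∀ i' t, t < s → L i' t (ρ (c, d)) = ((ind i' i : ℝ) : 𝕜) := by
          intro i' t hts
          unfold ind
          by_cases h : i' < i
          · rw [if_pos h, hLρ1 _ _ _ _ ((hc i').2 h) ((hd t).2 hts)]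
            simp
          · rw [if_neg h, hLρ0 _ _ _ _ (fun h' => h ((hc i').1 h'.1))]
            simp
        have h1' : ∀ i' t, ¬ t < s → L i' t (ρ (c, d)) = 0 := fun i' t hts =>
          hLρ0 _ _ _ _ fun h => hts ((hd t).1 h.2)
        have h2 : FF i s = 0 := by
          rcases hi with rfl | rfl
          · exact (FF_pq s).1
          · exact (FF_pq s).2
        have h3 : HasSum (fun t => (cc t : 𝕜) * (L (pp t) t (ρ (c, d)) - L (qq t) t (ρ (c, d))))
            (∑ t ∈ Finset.range s,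
              (cc t : 𝕜) * (L (pp t) t (ρ (c, d)) - L (qq t) t (ρ (c, d)))) := by
          refine hasSum_sum_of_ne_finset_zero fun t ht => ?_
          have ht' : ¬ t < s := by simpa using ht
          rw [h1' _ _ ht', h1' _ _ ht', sub_self, mul_zero]
        have h4 : (∑ t ∈ Finset.range s,
              (cc t : 𝕜) * (L (pp t) t (ρ (c, d)) - L (qq t) t (ρ (c, d)))) = ((FF i s : ℝ) : 𝕜) := by
          unfold FF
          push_cast
          refine Finset.sum_congr rfl fun t ht => ?_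
          have ht' : t < s := by simpa using ht
          rw [h1 _ _ ht', h1 _ _ ht']
        rw [h4, h2] at h3
        simpa using h3
  refine ⟨M, ?_, x, ?_, ?_, hxM⟩
  · rintro φ ⟨t, n, h | h⟩
    · exact ⟨_, _, h⟩
    · exact ⟨_, _, h⟩
  · -- x ≠ 0
    intro hx0
    have h1 : x (ρ ((α 0 : WithTop I), (β 0 : WithTop J))) = 1 := by
      refine (hxe _).unique ?_
      have hLi : ∀ i t, t ≠ 0 → L i t (ρ ((α 0 : WithTop I), (β 0 : WithTop J))) = 0 := by
        intro i t ht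
        refine hLρ0 _ _ _ _ fun h => ?_
        have := hβ.le_iff_le.1 (WithTop.coe_le_coe.1 h.2)
        omega
      have h3 : HasSum (fun t => (cc t : 𝕜) * (L (pp t) t (ρ ((α 0 : WithTop I), (β 0 : WithTop J)))
            - L (qq t) t (ρ ((α 0 : WithTop I), (β 0 : WithTop J)))))
          ((cc 0 : 𝕜) * (L (pp 0) 0 (ρ ((α 0 : WithTop I), (β 0 : WithTop J)))
            - L (qq 0) 0 (ρ ((α 0 : WithTop I), (β 0 : WithTop J))))) := by
        refine hasSum_single 0 fun t ht => ?_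
        rw [hLi _ _ ht, hLi _ _ ht, sub_self, mul_zero]
      have h4 : L (pp 0) 0 (ρ ((α 0 : WithTop I), (β 0 : WithTop J))) = 1 :=
        hLρ1 _ _ _ _ (by simp [pp]) le_rfl
      have h5 : L (qq 0) 0 (ρ ((α 0 : WithTop I), (β 0 : WithTop J))) = 0 := by
        refine hLρ0 _ _ _ _ fun h => ?_
        have := hα.le_iff_le.1 (WithTop.coe_le_coe.1 h.1)
        simp [qq] at this
      have h6 : (cc 0 : 𝕜) = 1 := by
        have : cc 0 = 1 := by simp [cc]
        rw [this]; simp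
      rw [h4, h5, h6] at h3
      simpa using h3
    rw [hx0] at h1
    simp at h1
  · -- annihilates
    rintro f ⟨φ, ⟨t, n, h⟩, hf⟩
    rcases h with h | h
    · rw [h] at hf
      refine eq_zero_of_gen ρ (C (a (pp t) n) (b t n)) x ?_ f (hC2 _ _ f hf)
      rintro ⟨c, d⟩ hmem
      obtain ⟨h1, h2⟩ := hcd _ _ _ _ c d hmem
      exact hzero t (pp t) c d (Or.inl rfl) h1 h2
    · rw [h] at hf
      refine eq_zero_of_gen ρ (C (a (qq t) n) (b t n)) x ?_ f (hC2 _ _ f hf)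
      rintro ⟨c, d⟩ hmem
      obtain ⟨h1, h2⟩ := hcd _ _ _ _ c d hmem
      exact hzero t (qq t) c d (Or.inr rfl) h1 h2

end Pool.Agent.Lib.MP_132384_an
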