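import Pool.Agent.Lib.MP_132384_an.Space

open Set Filter Topology Cardinal

namespace Pool.Agent.Lib.MP_132384_an

variable (𝕜 : Type) [RCLike 𝕜] (I J : Type) [LinearOrder I] [LinearOrder J]

/-- functionals given by summable families -/
noncomputable def YY : Submodule 𝕜 (StrongDual 𝕜 (XX 𝕜 I J)) where
  carrier := {φ | ∃ y : I × J → 𝕜, Summable (fun p => ‖y p‖) ∧
    ∀ f : XX 𝕜 I J, HasSum (fun p => y p * (f : EE 𝕜 I J) p) (φ f)}
  add_mem' := by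
    rintro φ ψ ⟨y, hy, h⟩ ⟨z, hz, h'⟩
    refine ⟨fun p => y p + z p, ?_, fun f => ?_⟩
    · exact Summable.of_nonneg_of_le (fun p => norm_nonneg _) (fun p => norm_add_le _ _)
        (hy.add hz)
    · have := (h f).add (h' f)
      simpa [add_mul] using this
  zero_mem' := ⟨fun _ => 0, by simpa using summable_zero, fun f => by simpa using hasSum_zero⟩
  smul_mem' := by
    rintro c φ ⟨y, hy, h⟩
    refine ⟨fun p => c * y p, ?_, fun f => ?_⟩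
    · simpa using hy.mul_left ‖c‖
    · have := (h f).mul_left c
      simpa [mul_assoc] using this

variable {I J}

theorem delta_mem (p : I × J) : delta 𝕜 p ∈ YY 𝕜 I J := by
  classical
  refine ⟨Pi.single p 1, ?_, fun f => ?_⟩
  · refine summable_of_ne_finset_zero (s := {p}) fun q hq => ?_
    have : q ≠ p := by simpa using hq
    simp [Pi.single_eq_of_ne this]
  · rw [delta_apply]
    have h1 : HasSum (fun q => (Pi.single p (1 : 𝕜) : I × J → 𝕜) q * (f : EE 𝕜 I J) q)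
        ((Pi.single p (1 : 𝕜) : I × J → 𝕜) p * (f : EE 𝕜 I J) p) := by
      refine hasSum_single p fun q hq => ?_
      rw [Pi.single_eq_of_ne hq, zero_mul]
    simpa using h1

theorem YY_norming : IsNorming (YY 𝕜 I J) := by
  refine ⟨1, one_pos, fun f => ?_⟩
  rw [one_mul]
  set S : Set ℝ := {r : ℝ | ∃ φ ∈ YY 𝕜 I J, ‖φ‖ ≤ 1 ∧ r = ‖φ f‖} with hS
  have hbdd : BddAbove S := by
    refine ⟨‖f‖, ?_⟩
    rintro r ⟨φ, _, hφ, rfl⟩
    refine (φ.le_opNorm f).trans ?_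
    exact mul_le_of_le_one_left (norm_nonneg _) hφ
  have h0 : 0 ≤ sSup S := by
    refine Real.sSup_nonneg ?_
    rintro r ⟨φ, _, _, rfl⟩
    exact norm_nonneg _
  show ‖(f : EE 𝕜 I J)‖ ≤ sSup S
  refine lp.norm_le_of_forall_le h0 fun p => ?_
  exact le_csSup hbdd ⟨delta 𝕜 p, delta_mem 𝕜 p, delta_norm 𝕜 p, rfl⟩

variable [WellFoundedLT I] [WellFoundedLT J]

/-- unit vectors -/
noncomputable def ee (p : I × J) : XX 𝕜 I J := (exists_unit 𝕜 p).choose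

theorem ee_self (p : I × J) : (ee 𝕜 p : EE 𝕜 I J) p = 1 := (exists_unit 𝕜 p).choose_spec.1

theorem ee_ne (p q : I × J) (h : q ≠ p) : (ee 𝕜 p : EE 𝕜 I J) q = 0 :=
  (exists_unit 𝕜 p).choose_spec.2 q h

theorem YY_hasSum (φ : StrongDual 𝕜 (XX 𝕜 I J)) (hφ : φ ∈ YY 𝕜 I J) :
    Summable (fun p => ‖φ (ee 𝕜 p)‖) ∧
      ∀ f : XX 𝕜 I J, HasSum (fun p => φ (ee 𝕜 p) * (f : EE 𝕜 I J) p) (φ f) := by
  obtain ⟨y, hy, h⟩ := hφ
  have h1 : ∀ p, φ (ee 𝕜 p) = y p := by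
    intro p
    refine (h (ee 𝕜 p)).unique ?_
    have h2 : HasSum (fun q => y q * (ee 𝕜 p : EE 𝕜 I J) q) (y p * (ee 𝕜 p : EE 𝕜 I J) p) := by
      refine hasSum_single p fun q hq => ?_
      rw [ee_ne 𝕜 p q hq, mul_zero]
    rwa [ee_self, mul_one] at h2
  simp only [h1]
  exact ⟨hy, h⟩

/-- the generator -/
noncomputable def gen (φ : StrongDual 𝕜 (XX 𝕜 I J)) : Set (XX 𝕜 I J) :=
  {f | ∃ c d, (c = ⊤ ∨ ∃ a b, c = ((a : I) : WithTop I) ∧ φ (ee 𝕜 (a, b)) ≠ 0) ∧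
    (d = ⊤ ∨ ∃ a b, d = ((b : J) : WithTop J) ∧ φ (ee 𝕜 (a, b)) ≠ 0) ∧ f = rhoX 𝕜 (c, d)}

theorem gen_countable (φ : StrongDual 𝕜 (XX 𝕜 I J)) (hφ : φ ∈ YY 𝕜 I J) :
    (gen 𝕜 φ).Countable := by
  obtain ⟨hs, _⟩ := YY_hasSum 𝕜 φ hφ
  have h1 : (Function.support fun p : I × J => ‖φ (ee 𝕜 p)‖).Countable := hs.countable_support
  have h2 : ({p : I × J | φ (ee 𝕜 p) ≠ 0}).Countable := by
    refine h1.mono fun p hp => ?_
    simpa using hp
  have h3 : ({c : WithTop I | c = ⊤ ∨ ∃ a b, c = ((a : I) : WithTop I) ∧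
      φ (ee 𝕜 (a, b)) ≠ 0}).Countable := by
    have : ({c : WithTop I | c = ⊤ ∨ ∃ a b, c = ((a : I) : WithTop I) ∧
      φ (ee 𝕜 (a, b)) ≠ 0}) ⊆ insert ⊤ ((fun p : I × J => (p.1 : WithTop I)) ''
        {p : I × J | φ (ee 𝕜 p) ≠ 0}) := by
      rintro c (rfl | ⟨a, b, rfl, h⟩)
      · exact Set.mem_insert _ _
      · exact Set.mem_insert_of_mem _ ⟨(a, b), h, rfl⟩
    exact ((h2.image _).insert _).mono this
  have h4 : ({d : WithTop J | d = ⊤ ∨ ∃ a b, d = ((b : J) : WithTop J) ∧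
      φ (ee 𝕜 (a, b)) ≠ 0}).Countable := by
    have : ({d : WithTop J | d = ⊤ ∨ ∃ a b, d = ((b : J) : WithTop J) ∧
      φ (ee 𝕜 (a, b)) ≠ 0}) ⊆ insert ⊤ ((fun p : I × J => (p.2 : WithTop J)) ''
        {p : I × J | φ (ee 𝕜 p) ≠ 0}) := by
      rintro c (rfl | ⟨a, b, rfl, h⟩)
      · exact Set.mem_insert _ _
      · exact Set.mem_insert_of_mem _ ⟨(a, b), h, rfl⟩
    exact ((h2.image _).insert _).mono this
  refine ((h3.prod h4).image (rhoX 𝕜)).mono ?_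
  rintro f ⟨c, d, hc, hd, rfl⟩
  exact ⟨(c, d), ⟨hc, hd⟩, rfl⟩

theorem gen_isProjGen : IsProjGen (YY 𝕜 I J) (gen 𝕜) where
  norming := YY_norming 𝕜
  countable := gen_countable 𝕜
  annih_closure := by
    rintro A hA ⟨L, hL⟩
    refine Set.Subset.antisymm ?_ ?_
    swap
    · rintro _ rfl
      refine ⟨fun x _ => rfl, closure_subset_wsc A ?_⟩
      rw [hL]
      exact L.zero_mem
    rintro x ⟨hx1, hx2⟩
    show x = 0
    -- enough: x vanishes on rectangles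
    suffices h : ∀ q : WithTop I × WithTop J, x (rhoX 𝕜 q) = 0 by
      ext f
      refine eq_zero_of_gen (rhoX 𝕜) Set.univ x (fun i _ => h i) f ?_
      rw [Set.image_univ]
      exact XX_span 𝕜 f
    rintro ⟨c, d⟩
    obtain ⟨c', hc', hcc⟩ := exists_round {a : I | ∃ φ ∈ A, ∃ b : J, φ (ee 𝕜 (a, b)) ≠ 0} c
    obtain ⟨d', hd', hdd⟩ := exists_round {b : J | ∃ φ ∈ A, ∃ a : I, φ (ee 𝕜 (a, b)) ≠ 0} d
    have h1 : ∀ φ ∈ A, φ (rhoX 𝕜 (c, d)) = φ (rhoX 𝕜 (c', d')) := by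
      intro φ hφ
      obtain ⟨_, h2⟩ := YY_hasSum 𝕜 φ (hA hφ)
      refine (h2 (rhoX 𝕜 (c, d))).unique ?_
      have h3 : (fun p : I × J => φ (ee 𝕜 p) * (rhoX 𝕜 (c', d') : EE 𝕜 I J) p) =
          (fun p : I × J => φ (ee 𝕜 p) * (rhoX 𝕜 (c, d) : EE 𝕜 I J) p) := by
        funext p
        by_cases hp : φ (ee 𝕜 p) = 0
        · rw [hp, zero_mul, zero_mul]
        · have h4 := hcc p.1 ⟨φ, hφ, p.2, hp⟩
          have h5 := hdd p.2 ⟨φ, hφ, p.1, hp⟩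
          congr 1
          show rhoFun 𝕜 (c', d') p = rhoFun 𝕜 (c, d) p
          unfold rhoFun
          simp only [h4, h5]
      rw [← h3]
      exact h2 (rhoX 𝕜 (c', d'))
    rw [eq_of_mem_wsc A _ _ h1 x hx2]
    -- find an element of A whose generator set contains the rectangle
    have hne : A.Nonempty := by
      by_contra hcon
      rw [Set.not_nonempty_iff_eq_empty] at hcon
      rw [hcon] at hL
      have : (0 : StrongDual 𝕜 (XX 𝕜 I J)) ∈ (∅ : Set (StrongDual 𝕜 (XX 𝕜 I J))) := by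
        rw [← closure_empty, hL]
        exact L.zero_mem
      exact this
    suffices h : ∃ φ ∈ A, rhoX 𝕜 (c', d') ∈ gen 𝕜 φ by
      obtain ⟨φ, hφ, h⟩ := h
      exact hx1 _ ⟨φ, hφ, h⟩
    rcases hc' with hc' | ⟨a, ⟨φ, hφ, b1, hφa⟩, hc'⟩
    · rcases hd' with hd' | ⟨b, ⟨ψ, hψ, a1, hψb⟩, hd'⟩
      · obtain ⟨φ, hφ⟩ := hne
        exact ⟨φ, hφ, c', d', Or.inl hc', Or.inl hd', rfl⟩
      · exact ⟨ψ, hψ, c', d', Or.inl hc', Or.inr ⟨a1, b, hd', hψb⟩, rfl⟩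
    · rcases hd' with hd' | ⟨b, ⟨ψ, hψ, a1, hψb⟩, hd'⟩
      · exact ⟨φ, hφ, c', d', Or.inr ⟨a, b1, hc', hφa⟩, Or.inl hd', rfl⟩
      · have hφL : φ ∈ L := by
          rw [← SetLike.mem_coe, ← hL]
          exact subset_closure hφ
        have hψL : ψ ∈ L := by
          rw [← SetLike.mem_coe, ← hL]
          exact subset_closure hψ
        have h2 : ∃ θ ∈ L, θ (ee 𝕜 (a, b1)) ≠ 0 ∧ θ (ee 𝕜 (a1, b)) ≠ 0 := by
          by_cases h3 : φ (ee 𝕜 (a1, b)) = 0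
          · by_cases h4 : ψ (ee 𝕜 (a, b1)) = 0
            · refine ⟨φ + ψ, L.add_mem hφL hψL, ?_, ?_⟩
              · rw [ContinuousLinearMap.add_apply, h4, add_zero]
                exact hφa
              · rw [ContinuousLinearMap.add_apply, h3, zero_add]
                exact hψb
            · exact ⟨ψ, hψL, h4, hψb⟩
          · exact ⟨φ, hφL, hφa, h3⟩
        obtain ⟨θ, hθL, hθ1, hθ2⟩ := h2
        have hopen : IsOpen {θ : StrongDual 𝕜 (XX 𝕜 I J) |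
            θ (ee 𝕜 (a, b1)) ≠ 0 ∧ θ (ee 𝕜 (a1, b)) ≠ 0} := by
          refine IsOpen.inter ?_ ?_
          · exact isOpen_ne_fun (ContinuousLinearMap.apply 𝕜 𝕜 (ee 𝕜 (a, b1))).continuous
              continuous_const
          · exact isOpen_ne_fun (ContinuousLinearMap.apply 𝕜 𝕜 (ee 𝕜 (a1, b))).continuous
              continuous_const
        have hθc : θ ∈ closure A := by
          rw [hL]
          exact hθL
        obtain ⟨θ', ⟨h5, h6⟩, hθ'⟩ := mem_closure_iff.1 hθc _ hopen ⟨hθ1, hθ2⟩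
        exact ⟨θ', hθ', c', d', Or.inr ⟨a, b1, hc', h5⟩, Or.inr ⟨a1, b, hd', h6⟩, rfl⟩

/-- the strengthened condition fails for every choice of countable sets -/
theorem XX_fail (hI : ℵ₀ ≤ #I) (hI1 : SBdd I (Order.succ ℵ₀)) (hJ : SBdd J (2 ^ #I))
    (Φ : StrongDual 𝕜 (XX 𝕜 I J) → Set (XX 𝕜 I J)) (hΦ : IsProjGen (YY 𝕜 I J) Φ) :
    ∃ M : Set (StrongDual 𝕜 (XX 𝕜 I J)), M ⊆ YY 𝕜 I J ∧
      weakStarClosure (Submodule.span 𝕜 M : Set (StrongDual 𝕜 (XX 𝕜 I J))) ∩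
        annih 𝕜 (unionOf Φ M) ≠ {0} := by
  obtain ⟨M, hM, x, hx0, hx1, hx2⟩ := abstract_fail (𝕜 := 𝕜) (X := XX 𝕜 I J) (I := I) (J := J)
    hI hI1 hJ (rhoX 𝕜) (fun a b => delta 𝕜 (a, b)) (fun a b => delta_norm 𝕜 _)
    (fun a b c d h1 h2 => rhoFun_one 𝕜 (c, d) (a, b) ⟨h1, h2⟩)
    (fun a b c d h => rhoFun_zero 𝕜 (c, d) (a, b) h)
    (XX_span 𝕜) Φ (fun a b => hΦ.countable _ (delta_mem 𝕜 _))
  refine ⟨M, ?_, ?_⟩
  · intro φ hφ
    obtain ⟨a, b, rfl⟩ := hM φ hφ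
    exact delta_mem 𝕜 _
  · intro hcon
    have : x ∈ ({0} : Set (StrongDual 𝕜 (XX 𝕜 I J))) := by
      rw [← hcon]
      exact ⟨hx2, hx1⟩
    exact hx0 this

end Pool.Agent.Lib.MP_132384_an
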