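import Mathlib

open Filter Topology

namespace Pool.Agent.Lib.MP_132384_an

/-- coefficients -/
noncomputable def cc (t : ℕ) : ℝ :=
  if t % 4 = 0 then 2 * (1 / 2) ^ (t / 4 + 1) else (1 / 2) ^ (t / 4 + 1)

/-- first column index -/
def pp (t : ℕ) : ℕ :=
  if t = 0 then 0 else if t % 4 = 0 then 3 * (t / 4) - 1 else
    if t % 4 = 1 then 3 * (t / 4) + 3 else if t % 4 = 2 then 3 * (t / 4) + 4 else 3 * (t / 4) + 2

/-- second column index -/
def qq (t : ℕ) : ℕ :=
  if t = 0 then 2 else if t % 4 = 0 then 3 * (t / 4) + 1 else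
    if t % 4 = 1 then 3 * (t / 4) else if t % 4 = 2 then 3 * (t / 4) else 3 * (t / 4) + 5

/-- indicator of `k < x` -/
noncomputable def ind (k x : ℕ) : ℝ := if k < x then 1 else 0

/-- partial sums -/
noncomputable def FF (x T : ℕ) : ℝ :=
  ∑ t ∈ Finset.range T, cc t * (ind (pp t) x - ind (qq t) x)

theorem FF_zero (x : ℕ) : FF x 0 = 0 := by simp [FF]

theorem FF_succ (x T : ℕ) : FF x (T + 1) = FF x T + cc T * (ind (pp T) x - ind (qq T) x) := by
  simp [FF, Finset.sum_range_succ]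

theorem FF_two (x r : ℕ) : FF x (4 * r + 2) = FF x (4 * r + 1) +
    (1 / 2) ^ (r + 1) * (ind (3 * r + 3) x - ind (3 * r) x) := by
  rw [show 4 * r + 2 = (4 * r + 1) + 1 from rfl, FF_succ]
  have h1 : (4 * r + 1) % 4 = 1 := by omega
  have h2 : (4 * r + 1) / 4 = r := by omega
  simp [cc, pp, qq, h1, h2]

theorem FF_three (x r : ℕ) : FF x (4 * r + 3) = FF x (4 * r + 2) +
    (1 / 2) ^ (r + 1) * (ind (3 * r + 4) x - ind (3 * r) x) := by
  rw [show 4 * r + 3 = (4 * r + 2) + 1 from rfl, FF_succ]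
  have h1 : (4 * r + 2) % 4 = 2 := by omega
  have h2 : (4 * r + 2) / 4 = r := by omega
  simp [cc, pp, qq, h1, h2]

theorem FF_four (x r : ℕ) : FF x (4 * r + 4) = FF x (4 * r + 3) +
    (1 / 2) ^ (r + 1) * (ind (3 * r + 2) x - ind (3 * r + 5) x) := by
  rw [show 4 * r + 4 = (4 * r + 3) + 1 from rfl, FF_succ]
  have h1 : (4 * r + 3) % 4 = 3 := by omega
  have h2 : (4 * r + 3) / 4 = r := by omega
  simp [cc, pp, qq, h1, h2]

theorem FF_five (x r : ℕ) : FF x (4 * (r + 1) + 1) = FF x (4 * r + 4) +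
    (1 / 2) ^ (r + 1) * (ind (3 * r + 2) x - ind (3 * r + 4) x) := by
  rw [show 4 * (r + 1) + 1 = (4 * r + 4) + 1 from by ring, FF_succ]
  have h1 : (4 * r + 4) % 4 = 0 := by omega
  have h2 : (4 * r + 4) / 4 = r + 1 := by omega
  have h3 : 3 * (r + 1) - 1 = 3 * r + 2 := by omega
  have h4 : 3 * (r + 1) + 1 = 3 * r + 4 := by omega
  have h5 : 4 * r + 4 ≠ 0 := by omega
  simp only [cc, pp, qq, h1, h2, h3, h4, h5, if_true, if_false]
  ring

theorem FF_one (x r : ℕ) : FF x (4 * r + 1) =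
    2 * (1 / 2) ^ (r + 1) * (ind (3 * r) x - ind (3 * r + 2) x) := by
  induction r with
  | zero =>
    rw [show 4 * 0 + 1 = 0 + 1 from rfl, FF_succ, FF_zero]
    simp [cc, pp, qq]
  | succ r ih =>
    rw [FF_five, FF_four, FF_three, FF_two, ih]
    rw [show 3 * (r + 1) = 3 * r + 3 from by ring, show 3 * r + 3 + 2 = 3 * r + 5 from rfl]
    ring

theorem FF_pq (t : ℕ) : FF (pp t) t = 0 ∧ FF (qq t) t = 0 := by
  obtain ⟨r, hr⟩ : ∃ r, t = 4 * r + 1 ∨ t = 4 * r + 2 ∨ t = 4 * r + 3 ∨ t = 4 * r + 4 ∨ t = 0 :=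
    ⟨(t - 1) / 4, by omega⟩
  rcases hr with rfl | rfl | rfl | rfl | rfl
  · have h1 : (4 * r + 1) % 4 = 1 := by omega
    have h2 : (4 * r + 1) / 4 = r := by omega
    have hp : pp (4 * r + 1) = 3 * r + 3 := by simp [pp, h1, h2]
    have hq : qq (4 * r + 1) = 3 * r := by simp [qq, h1, h2]
    rw [hp, hq, FF_one, FF_one]
    simp [ind]
  · have h1 : (4 * r + 2) % 4 = 2 := by omega
    have h2 : (4 * r + 2) / 4 = r := by omega
    have hp : pp (4 * r + 2) = 3 * r + 4 := by simp [pp, h1, h2]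
    have hq : qq (4 * r + 2) = 3 * r := by simp [qq, h1, h2]
    rw [hp, hq, FF_two, FF_one, FF_two, FF_one]
    simp [ind]
  · have h1 : (4 * r + 3) % 4 = 3 := by omega
    have h2 : (4 * r + 3) / 4 = r := by omega
    have hp : pp (4 * r + 3) = 3 * r + 2 := by simp [pp, h1, h2]
    have hq : qq (4 * r + 3) = 3 * r + 5 := by simp [qq, h1, h2]
    rw [hp, hq, FF_three, FF_two, FF_one, FF_three, FF_two, FF_one]
    constructor
    · simp [ind]
      ring
    · simp [ind]
  · have h1 : (4 * r + 4) % 4 = 0 := by omega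
    have h2 : (4 * r + 4) / 4 = r + 1 := by omega
    have hp : pp (4 * r + 4) = 3 * r + 2 := by
      simp only [pp, h1, h2, if_true, show 4 * r + 4 ≠ 0 by omega, if_false]
      omega
    have hq : qq (4 * r + 4) = 3 * r + 4 := by
      simp only [qq, h1, h2, if_true, show 4 * r + 4 ≠ 0 by omega, if_false]
      omega
    rw [hp, hq, FF_four, FF_three, FF_two, FF_one, FF_four, FF_three, FF_two, FF_one]
    constructor
    · simp [ind]
      ring
    · simp [ind]
  · exact ⟨FF_zero _, FF_zero _⟩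

theorem cc_nonneg (t : ℕ) : 0 ≤ cc t := by
  unfold cc; split_ifs <;> positivity

theorem cc_le (t : ℕ) : cc t ≤ (9 / 10) ^ t / (9 / 10) ^ 3 := by
  have h1 : cc t ≤ (1 / 2) ^ (t / 4) := by
    unfold cc
    split_ifs
    · rw [pow_succ]; linarith
    · rw [pow_succ]
      have : (0 : ℝ) ≤ (1 / 2) ^ (t / 4) := by positivity
      linarith
  have h2 : ((1 : ℝ) / 2) ^ (t / 4) ≤ ((9 / 10) ^ 4) ^ (t / 4) := by
    apply pow_le_pow_left₀ (by norm_num)
    norm_num
  have h3 : (((9 : ℝ) / 10) ^ 4) ^ (t / 4) * (9 / 10) ^ 3 ≤ (9 / 10) ^ t := by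
    rw [← pow_mul, ← pow_add]
    apply pow_le_pow_of_le_one (by norm_num) (by norm_num)
    omega
  rw [le_div_iff₀ (by norm_num)]
  calc cc t * (9 / 10) ^ 3 ≤ (((9 : ℝ) / 10) ^ 4) ^ (t / 4) * (9 / 10) ^ 3 := by
        apply mul_le_mul_of_nonneg_right (h1.trans h2) (by norm_num)
    _ ≤ _ := h3

theorem summable_cc : Summable cc := by
  refine Summable.of_nonneg_of_le cc_nonneg cc_le ?_
  exact (summable_geometric_of_lt_one (by norm_num) (by norm_num)).div_const _

theorem ind_abs (k x : ℕ) : ind k x = 0 ∨ ind k x = 1 := by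
  unfold ind; split_ifs <;> simp

theorem hasSum_col (x : ℕ) : HasSum (fun t => cc t * (ind (pp t) x - ind (qq t) x)) 0 := by
  have hs : Summable (fun t => cc t * (ind (pp t) x - ind (qq t) x)) := by
    refine Summable.of_norm_bounded summable_cc ?_
    intro t
    rw [Real.norm_eq_abs, abs_mul, abs_of_nonneg (cc_nonneg t)]
    have : |ind (pp t) x - ind (qq t) x| ≤ 1 := by
      rcases ind_abs (pp t) x with h | h <;> rcases ind_abs (qq t) x with h' | h' <;>
        simp [h, h']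
    exact mul_le_of_le_one_right (cc_nonneg t) this
  have h1 : Tendsto (fun T => FF x T) atTop (𝓝 (∑' t, cc t * (ind (pp t) x - ind (qq t) x))) :=
    hs.hasSum.tendsto_sum_nat
  have h2 : Tendsto (fun r : ℕ => 4 * r + 1) atTop atTop :=
    tendsto_atTop_mono (fun r => by omega : ∀ r : ℕ, r ≤ 4 * r + 1) tendsto_id
  have h3 := h1.comp h2
  have h4 : Tendsto (fun r : ℕ => FF x (4 * r + 1)) atTop (𝓝 0) := by
    have hb : ∀ r : ℕ, |FF x (4 * r + 1)| ≤ (1 / 2) ^ r := by
      intro r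
      rw [FF_one, abs_mul, abs_mul, abs_of_nonneg (show (0 : ℝ) ≤ (1 / 2) ^ (r + 1) by positivity),
        pow_succ]
      have : |ind (3 * r) x - ind (3 * r + 2) x| ≤ 1 := by
        rcases ind_abs (3 * r) x with h | h <;> rcases ind_abs (3 * r + 2) x with h' | h' <;>
          simp [h, h']
      have h5 : (0 : ℝ) ≤ (1 / 2) ^ r := by positivity
      rw [abs_of_pos (by norm_num : (0 : ℝ) < 2)]
      nlinarith
    have h6 : Tendsto (fun r : ℕ => ((1 : ℝ) / 2) ^ r) atTop (𝓝 0) :=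
      tendsto_pow_atTop_nhds_zero_of_lt_one (by norm_num) (by norm_num)
    exact squeeze_zero_norm (fun r => hb r) h6
  have h5 := tendsto_nhds_unique h3 h4
  rw [← h5]
  exact hs.hasSum

theorem FF_one_one : FF 1 1 = 1 := by
  rw [show (1 : ℕ) = 4 * 0 + 1 from rfl, FF_one]
  simp [ind]

end Pool.Agent.Lib.MP_132384_an
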