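import Pool.Agent.Lib.MP_132384_an.Defs

open Set Filter Topology

namespace Pool.Agent.Lib.MP_132384_an

variable {𝕜 : Type} [RCLike 𝕜] {X : Type} [NormedAddCommGroup X] [NormedSpace 𝕜 X]

theorem eval_cont (x : X) : Continuous fun φ : WeakDual 𝕜 X => φ x :=
  WeakBilin.eval_continuous _ x

theorem exists_limit (f : ℕ → StrongDual 𝕜 X) (hf : ∀ n, ‖f n‖ ≤ 1) :
    ∃ L : StrongDual 𝕜 X, ‖L‖ ≤ 1 ∧ L ∈ weakStarClosure (Set.range f) ∧
      ∀ (x : X) (v : 𝕜), (∃ N, ∀ n ≥ N, f n x = v) → L x = v := by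
  have hcomp := WeakDual.isCompact_closedBall (𝕜 := 𝕜) (E := X) (0 : StrongDual 𝕜 X) 1
  let U : Ultrafilter ℕ := Filter.hyperfilter ℕ
  have hU : (U : Filter ℕ) ≤ atTop := by
    have := Filter.hyperfilter_le_cofinite (α := ℕ)
    rwa [Nat.cofinite_eq_atTop] at this
  obtain ⟨L, hLmem, hL⟩ := hcomp.ultrafilter_le_nhds (U.map fun n => StrongDual.toWeakDual (f n))
    (by
      rw [le_principal_iff]
      refine Filter.mem_map.2 (Filter.univ_mem' fun n => ?_)
      show WeakDual.toStrongDual (StrongDual.toWeakDual (f n)) ∈ Metric.closedBall 0 1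
      simpa using hf n)
  have hL' : Tendsto (fun n => StrongDual.toWeakDual (f n)) (U : Filter ℕ) (𝓝 L) := hL
  refine ⟨WeakDual.toStrongDual L, by simpa using hLmem, ?_, ?_⟩
  · show StrongDual.toWeakDual (WeakDual.toStrongDual L) ∈ _
    refine mem_closure_of_tendsto (f := fun n => StrongDual.toWeakDual (f n)) (b := (U : Filter ℕ))
      hL' ?_
    exact Filter.Eventually.of_forall fun n => ⟨f n, ⟨n, rfl⟩, rfl⟩
  · rintro x v ⟨N, hN⟩
    have h1 : Tendsto (fun n => f n x) (U : Filter ℕ) (𝓝 (L x)) :=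
      ((eval_cont x).tendsto L).comp hL'
    have h2 : Tendsto (fun n => f n x) (U : Filter ℕ) (𝓝 v) := by
      refine Tendsto.congr' ?_ tendsto_const_nhds
      exact hU (Filter.mem_atTop_sets.2 ⟨N, fun n hn => (hN n hn).symm⟩)
    exact tendsto_nhds_unique h1 h2

/-- the weak star closed linear span, as a submodule -/
noncomputable def wspan (M : Set (StrongDual 𝕜 X)) : Submodule 𝕜 (WeakDual 𝕜 X) :=
  ((Submodule.span 𝕜 M).map
    (StrongDual.toWeakDual (𝕜 := 𝕜) (E := X)).toLinearMap).topologicalClosure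

theorem mem_wspan (M : Set (StrongDual 𝕜 X)) (φ : StrongDual 𝕜 X) :
    StrongDual.toWeakDual φ ∈ wspan M ↔
      φ ∈ weakStarClosure (Submodule.span 𝕜 M : Set (StrongDual 𝕜 X)) := by
  unfold wspan weakStarClosure
  rw [← SetLike.mem_coe, Submodule.topologicalClosure_coe]
  rfl

theorem weakStarClosure_mono {A B : Set (StrongDual 𝕜 X)} (h : A ⊆ B) :
    weakStarClosure A ⊆ weakStarClosure B := by
  intro φ hφ
  have h1 : (StrongDual.toWeakDual '' A : Set (WeakDual 𝕜 X)) ⊆ StrongDual.toWeakDual '' B :=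
    Set.image_mono h
  exact closure_mono h1 hφ

theorem tsum_mem (M : Set (StrongDual 𝕜 X)) (g : ℕ → StrongDual 𝕜 X)
    (hg : ∀ n, g n ∈ weakStarClosure (Submodule.span 𝕜 M : Set (StrongDual 𝕜 X)))
    (s : StrongDual 𝕜 X) (hs : HasSum g s) :
    s ∈ weakStarClosure (Submodule.span 𝕜 M : Set (StrongDual 𝕜 X)) := by
  rw [← mem_wspan]
  have hclosed : IsClosed ((wspan M : Submodule 𝕜 (WeakDual 𝕜 X)) : Set (WeakDual 𝕜 X)) :=
    Submodule.isClosed_topologicalClosure _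
  have h1 : Tendsto (fun T : Finset ℕ => StrongDual.toWeakDual (∑ t ∈ T, g t)) atTop
      (𝓝 (StrongDual.toWeakDual s)) :=
    (NormedSpace.Dual.toWeakDual_continuous.tendsto s).comp hs
  refine hclosed.mem_of_tendsto h1 (Filter.Eventually.of_forall fun T => ?_)
  show StrongDual.toWeakDual (∑ t ∈ T, g t) ∈ wspan M
  rw [map_sum]
  exact Submodule.sum_mem _ fun t _ => (mem_wspan M _).2 (hg t)

theorem wsc_smul (M : Set (StrongDual 𝕜 X)) (c : 𝕜) (φ : StrongDual 𝕜 X)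
    (h : φ ∈ weakStarClosure (Submodule.span 𝕜 M : Set (StrongDual 𝕜 X))) :
    c • φ ∈ weakStarClosure (Submodule.span 𝕜 M : Set (StrongDual 𝕜 X)) := by
  rw [← mem_wspan] at h ⊢
  rw [map_smul]
  exact Submodule.smul_mem _ _ h

theorem wsc_sub (M : Set (StrongDual 𝕜 X)) (φ ψ : StrongDual 𝕜 X)
    (h : φ ∈ weakStarClosure (Submodule.span 𝕜 M : Set (StrongDual 𝕜 X)))
    (h' : ψ ∈ weakStarClosure (Submodule.span 𝕜 M : Set (StrongDual 𝕜 X))) :
    φ - ψ ∈ weakStarClosure (Submodule.span 𝕜 M : Set (StrongDual 𝕜 X)) := by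
  rw [← mem_wspan] at h h' ⊢
  rw [map_sub]
  exact Submodule.sub_mem _ h h'

/-- a weak star continuous equality passes to the weak star closure -/
theorem eq_of_mem_wsc (A : Set (StrongDual 𝕜 X)) (x y : X) (h : ∀ φ ∈ A, φ x = φ y)
    (φ : StrongDual 𝕜 X) (hφ : φ ∈ weakStarClosure A) : φ x = φ y := by
  have hclosed : IsClosed {ψ : WeakDual 𝕜 X | ψ x = ψ y} :=
    isClosed_eq (eval_cont x) (eval_cont y)
  have hsub : StrongDual.toWeakDual '' A ⊆ {ψ : WeakDual 𝕜 X | ψ x = ψ y} := by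
    rintro _ ⟨ψ, hψ, rfl⟩
    exact h ψ hψ
  exact closure_minimal hsub hclosed hφ

theorem subset_wsc (A : Set (StrongDual 𝕜 X)) : A ⊆ weakStarClosure A := by
  intro φ hφ
  have h1 : (StrongDual.toWeakDual '' A : Set (WeakDual 𝕜 X)) ⊆
    closure (StrongDual.toWeakDual '' A : Set (WeakDual 𝕜 X)) := subset_closure
  exact h1 ⟨φ, hφ, rfl⟩

theorem closure_subset_wsc (A : Set (StrongDual 𝕜 X)) : closure A ⊆ weakStarClosure A := by
  intro φ hφ
  have h1 : Continuous (StrongDual.toWeakDual : StrongDual 𝕜 X → WeakDual 𝕜 X) :=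
    NormedSpace.Dual.toWeakDual_continuous
  have h2 := image_closure_subset_closure_image (s := A) h1
  exact h2 ⟨φ, hφ, rfl⟩

end Pool.Agent.Lib.MP_132384_an
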