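import Pool.Agent.Lib.MP_132384_an.Block
import Pool.Agent.Lib.MP_132384_an.Mu
import Pool.Agent.Lib.MP_132384_an.WeakStar

open Set Filter Topology Cardinal

namespace Pool.Agent.Lib.MP_132384_an

variable {𝕜 : Type} [RCLike 𝕜] {X : Type} [NormedAddCommGroup X] [NormedSpace 𝕜 X]

theorem exists_countable_gen {ι : Type} (ρ : ι → X)
    (hspan : ∀ f : X, f ∈ closure (Submodule.span 𝕜 (Set.range ρ) : Set X))
    (T : Set X) (hT : T.Countable) :
    ∃ C : Set ι, C.Countable ∧ ∀ f ∈ T, f ∈ closure (Submodule.span 𝕜 (ρ '' C) : Set X) := by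
  classical
  have h1 : ∀ (f : X) (n : ℕ), ∃ c : ι →₀ 𝕜, dist f (c.sum fun i a => a • ρ i) < 1 / (n + 1) := by
    intro f n
    obtain ⟨g, hg, hd⟩ := Metric.mem_closure_iff.1 (hspan f) (1 / (n + 1)) (by positivity)
    obtain ⟨c, hc⟩ := Finsupp.mem_span_range_iff_exists_finsupp.1 hg
    exact ⟨c, by rw [hc]; exact hd⟩
  choose c hc using h1
  refine ⟨⋃ f ∈ T, ⋃ n : ℕ, ((c f n).support : Set ι), ?_, ?_⟩
  · exact hT.biUnion fun f _ => Set.countable_iUnion fun n => (Finset.finite_toSet _).countable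
  · intro f hf
    rw [Metric.mem_closure_iff]
    intro ε hε
    obtain ⟨n, hn⟩ := exists_nat_one_div_lt hε
    refine ⟨(c f n).sum fun i a => a • ρ i, ?_, (hc f n).trans hn⟩
    refine Submodule.sum_mem _ fun i hi => Submodule.smul_mem _ _ (Submodule.subset_span ?_)
    refine ⟨i, ?_, rfl⟩
    simp only [Set.mem_iUnion]
    exact ⟨f, hf, n, hi⟩

theorem eq_zero_of_gen {ι : Type} (ρ : ι → X) (C : Set ι) (φ : StrongDual 𝕜 X)
    (h : ∀ i ∈ C, φ (ρ i) = 0) (f : X) (hf : f ∈ closure (Submodule.span 𝕜 (ρ '' C) : Set X)) :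
    φ f = 0 := by
  have hclosed : IsClosed {x : X | φ x = 0} := isClosed_eq φ.continuous continuous_const
  refine closure_minimal ?_ hclosed hf
  intro x hx
  have : Submodule.span 𝕜 (ρ '' C) ≤ LinearMap.ker (φ : X →ₗ[𝕜] 𝕜) := by
    rw [Submodule.span_le]
    rintro _ ⟨i, hi, rfl⟩
    exact h i hi
  exact this hx

/-- combinatorial choice of the two systems of blocks -/
theorem exists_blocks {I J : Type} [LinearOrder I] [WellFoundedLT I] [LinearOrder J]
    [WellFoundedLT J] (hI : ℵ₀ ≤ #I) (hI1 : SBdd I (Order.succ ℵ₀))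
    (hJ : SBdd J (2 ^ #I))
    (C : I → J → Set (WithTop I × WithTop J)) (hC : ∀ a b, (C a b).Countable) :
    ∃ (α : ℕ → I) (a : ℕ → ℕ → I) (β : ℕ → J) (b : ℕ → ℕ → J),
      StrictMono α ∧ StrictMono β ∧
      (∀ i n j m, ∀ c d, (c, d) ∈ C (a i n) (b j m) →
        (c = ⊤ ∨ (∀ i', ¬ (α i' : WithTop I) ≤ c) ∨ (∀ i', (α i' : WithTop I) ≤ c ↔ i' < i)) ∧
        (d = ⊤ ∨ (∀ j', ¬ (β j' : WithTop J) ≤ d) ∨ (∀ j', (β j' : WithTop J) ≤ d ↔ j' < j))) ∧
      (∀ i (c : WithTop I), (α i : WithTop I) ≤ c → ∀ n, (a i n : WithTop I) < c) ∧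
      (∀ i (c : WithTop I), ¬ (α i : WithTop I) ≤ c →
        ∃ N, ∀ n ≥ N, ¬ ((a i n : WithTop I) < c)) ∧
      (∀ j (d : WithTop J), (β j : WithTop J) ≤ d → ∀ m, (b j m : WithTop J) < d) ∧
      (∀ j (d : WithTop J), ¬ (β j : WithTop J) ≤ d →
        ∃ N, ∀ m ≥ N, ¬ ((b j m : WithTop J) < d)) := by
  classical
  have hcountI : ∀ s : Set I, s.Countable → ∃ u, ∀ x ∈ s, x < u := fun s hs =>
    hI1 s ((Cardinal.le_aleph0_iff_set_countable.2 hs).trans (Order.le_succ _))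
  have h2I : #I ≤ 2 ^ #I := (Cardinal.cantor _).le
  have hcountJ : ∀ s : Set J, s.Countable → ∃ u, ∀ x ∈ s, x < u := fun s hs =>
    hJ s ((Cardinal.le_aleph0_iff_set_countable.2 hs).trans (hI.trans h2I))
  -- the second coordinates
  let D2' : J → Set (WithTop J) := fun b => {d | ∃ a c, (c, d) ∈ C a b}
  have hD2' : ∀ b, #(D2' b) ≤ #I := by
    intro b
    have h1 : D2' b = ⋃ a : I, Prod.snd '' (C a b) := by
      ext d
      simp [D2']
    rw [h1]
    refine (Cardinal.mk_iUnion_le _).trans ?_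
    have h2 : (⨆ a : I, #(Prod.snd '' (C a b))) ≤ ℵ₀ :=
      ciSup_le' fun a => Cardinal.le_aleph0_iff_set_countable.2 ((hC a b).image _)
    calc #I * (⨆ a : I, #(Prod.snd '' (C a b))) ≤ #I * ℵ₀ := by gcongr
      _ ≤ #I * #I := by gcongr
      _ = #I := Cardinal.mul_eq_self hI
  let D2 : J → Set J := fun b => {y | (y : WithTop J) ∈ D2' b}
  have hD2 : ∀ b, #(D2 b) ≤ #I := by
    intro b
    refine le_trans ?_ (hD2' b)
    refine Cardinal.mk_le_of_injective (f := fun y : D2 b => (⟨(y.1 : WithTop J), y.2⟩ : D2' b)) ?_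
    intro y z hyz
    have := congrArg Subtype.val hyz
    exact Subtype.ext (WithTop.coe_injective this)
  let t : J → Set (I × WithTop I) := fun b => {q | ∃ d, (q.2, d) ∈ C q.1 b}
  have hT : #(Set (I × WithTop I)) ≤ 2 ^ #I := by
    rw [Cardinal.mk_set]
    refine Cardinal.power_le_power_left two_ne_zero ?_
    have h1 : #(WithTop I) ≤ #I := by
      have h2 : #(WithTop I) = #I + 1 := Cardinal.mk_option
      rw [h2, Cardinal.add_one_eq hI]
    rw [Cardinal.mk_prod, Cardinal.lift_id, Cardinal.lift_id]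
    calc #I * #(WithTop I) ≤ #I * #I := by gcongr
      _ = #I := Cardinal.mul_eq_self hI
  obtain ⟨δ2, τ, hδ2⟩ := pressing (K := J) hJ hI (Order.succ_le_of_lt (Cardinal.cantor _))
    D2 hD2 hT t
  let S2 : Set J := {b | t b = τ ∧ ∀ y ∈ D2 b, y < b → y < δ2}
  obtain ⟨β, b, hb1, hb2, hb3, hb4, hβ⟩ := block hcountJ S2 hδ2 D2'
    (fun b => by
      obtain ⟨u, hu⟩ := hJ (D2 b) ((hD2 b).trans h2I)
      refine ⟨u, fun y hy => ?_⟩
      by_cases hy' : y = ⊤
      · exact Or.inl hy'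
      · lift y to J using hy'
        exact Or.inr (WithTop.coe_lt_coe.2 (hu y hy)))
    δ2
    (fun b hb y hy hyb => by
      lift y to J using (ne_top_of_lt hyb)
      exact WithTop.coe_lt_coe.2 (hb.2 y hy (WithTop.coe_lt_coe.1 hyb)))
  -- the first coordinates
  let D1' : I → Set (WithTop I) := fun a => {c | (a, c) ∈ τ}
  have hD1' : ∀ a, (D1' a).Countable := by
    intro a
    obtain ⟨b0, _, hb0, _⟩ := hδ2 δ2
    have h1 : D1' a ⊆ Prod.fst '' (C a b0) := by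
      intro c hc
      have h2 : (a, c) ∈ t b0 := by rw [hb0]; exact hc
      obtain ⟨d, hd⟩ := h2
      exact ⟨(c, d), hd, rfl⟩
    exact ((hC a b0).image _).mono h1
  let D1 : I → Set I := fun a => {x | (x : WithTop I) ∈ D1' a}
  have hD1c : ∀ a, (D1 a).Countable := fun a =>
    (hD1' a).preimage WithTop.coe_injective
  have hD1 : ∀ a, #(D1 a) ≤ ℵ₀ := fun a => Cardinal.le_aleph0_iff_set_countable.2 (hD1c a)
  obtain ⟨δ1, _, hδ1⟩ := pressing (K := I) hI1 le_rfl le_rfl D1 hD1 (T := Unit)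
    (by
      rw [Cardinal.mk_unit]
      exact Cardinal.one_le_aleph0.trans (Order.le_succ _)) (fun _ => ())
  let S1 : Set I := {a | ∀ y ∈ D1 a, y < a → y < δ1}
  obtain ⟨α, a, ha1, ha2, ha3, ha4, hα⟩ := block hcountI S1
    (fun x => by
      obtain ⟨b, h1, _, h2⟩ := hδ1 x
      exact ⟨b, h1, h2⟩) D1'
    (fun b => by
      obtain ⟨u, hu⟩ := hcountI (D1 b) (hD1c b)
      refine ⟨u, fun y hy => ?_⟩
      by_cases hy' : y = ⊤
      · exact Or.inl hy'
      · lift y to I using hy'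
        exact Or.inr (WithTop.coe_lt_coe.2 (hu y hy)))
    δ1
    (fun b hb y hy hyb => by
      lift y to I using (ne_top_of_lt hyb)
      exact WithTop.coe_lt_coe.2 (hb y hy (WithTop.coe_lt_coe.1 hyb)))
  refine ⟨α, a, β, b, hα, hβ, ?_, ha3, ha4, hb3, hb4⟩
  intro i n j m c d hcd
  refine ⟨ha2 i n c ?_, hb2 j m d ⟨_, _, hcd⟩⟩
  show (a i n, c) ∈ τ
  rw [← (hb1 j m).1]
  exact ⟨d, hcd⟩

end Pool.Agent.Lib.MP_132384_an
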