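import Pool.Agent.Lib.MP_132384_an.Fail

open Set Filter Topology Cardinal

namespace Pool.Agent.Lib.MP_132384_an

variable (𝕜 : Type) [RCLike 𝕜] (I J : Type) [LinearOrder I] [LinearOrder J]

/-- bounded families -/
abbrev EE := lp (fun _ : I × J => 𝕜) (⊤ : ENNReal)

variable {I J}

/-- indicator of a rectangle, as a function -/
noncomputable def rhoFun (q : WithTop I × WithTop J) : I × J → 𝕜 := by
  classical
  exact fun p => if (p.1 : WithTop I) < q.1 ∧ (p.2 : WithTop J) < q.2 then 1 else 0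

theorem rhoFun_one (q : WithTop I × WithTop J) (p : I × J)
    (h : (p.1 : WithTop I) < q.1 ∧ (p.2 : WithTop J) < q.2) : rhoFun 𝕜 q p = 1 := by
  unfold rhoFun
  simp only [h, and_self, if_true]

theorem rhoFun_zero (q : WithTop I × WithTop J) (p : I × J)
    (h : ¬ ((p.1 : WithTop I) < q.1 ∧ (p.2 : WithTop J) < q.2)) : rhoFun 𝕜 q p = 0 := by
  unfold rhoFun
  simp only [h, if_false]

theorem rho_mem (q : WithTop I × WithTop J) : Memℓp (rhoFun 𝕜 q) (⊤ : ENNReal) := by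
  refine memℓp_infty ⟨1, ?_⟩
  rintro _ ⟨p, rfl⟩
  by_cases h : (p.1 : WithTop I) < q.1 ∧ (p.2 : WithTop J) < q.2
  · simp [rhoFun_one 𝕜 q p h]
  · simp [rhoFun_zero 𝕜 q p h]

/-- indicator of a rectangle in `EE` -/
noncomputable def rho (q : WithTop I × WithTop J) : EE 𝕜 I J := ⟨rhoFun 𝕜 q, rho_mem 𝕜 q⟩

theorem rho_apply (q : WithTop I × WithTop J) (p : I × J) : rho 𝕜 q p = rhoFun 𝕜 q p := rfl

variable (I J)

/-- the space -/
noncomputable def XX : Submodule 𝕜 (EE 𝕜 I J) :=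
  (Submodule.span 𝕜 (Set.range (rho (I := I) (J := J) 𝕜))).topologicalClosure

variable {I J}

/-- indicator of a rectangle in the space -/
noncomputable def rhoX (q : WithTop I × WithTop J) : XX 𝕜 I J :=
  ⟨rho 𝕜 q, Submodule.le_topologicalClosure _ (Submodule.subset_span ⟨q, rfl⟩)⟩

theorem XX_span (f : XX 𝕜 I J) :
    f ∈ closure (Submodule.span 𝕜 (Set.range (rhoX (I := I) (J := J) 𝕜)) : Set (XX 𝕜 I J)) := by
  rw [Topology.IsInducing.subtypeVal.closure_eq_preimage_closure_image]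
  have h1 : (Subtype.val '' (Submodule.span 𝕜 (Set.range (rhoX (I := I) (J := J) 𝕜)) :
      Set (XX 𝕜 I J)) : Set (EE 𝕜 I J)) =
      (Submodule.span 𝕜 (Set.range (rho (I := I) (J := J) 𝕜)) : Set (EE 𝕜 I J)) := by
    have h2 := Submodule.map_span (XX 𝕜 I J).subtype (Set.range (rhoX (I := I) (J := J) 𝕜))
    have h3 : (XX 𝕜 I J).subtype '' (Set.range (rhoX (I := I) (J := J) 𝕜)) =
        Set.range (rho (I := I) (J := J) 𝕜) := by
      ext g
      simp [rhoX]
    rw [h3] at h2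
    rw [← h2]
    rfl
  have h4 : (f.1 : EE 𝕜 I J) ∈ closure (Subtype.val ''
      (Submodule.span 𝕜 (Set.range (rhoX (I := I) (J := J) 𝕜)) :
      Set (XX 𝕜 I J)) : Set (EE 𝕜 I J)) := by
    rw [h1]
    exact f.2
  exact h4

/-- evaluation functionals -/
noncomputable def delta (p : I × J) : StrongDual 𝕜 (XX 𝕜 I J) :=
  LinearMap.mkContinuous
    { toFun := fun f => (f : EE 𝕜 I J) p
      map_add' := fun f g => rfl
      map_smul' := fun c f => rfl } 1
    (fun f => by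
      rw [one_mul]
      exact lp.norm_apply_le_norm ENNReal.top_ne_zero (f : EE 𝕜 I J) p)

theorem delta_apply (p : I × J) (f : XX 𝕜 I J) : delta 𝕜 p f = (f : EE 𝕜 I J) p := rfl

theorem delta_norm (p : I × J) : ‖delta 𝕜 p‖ ≤ 1 :=
  LinearMap.mkContinuous_norm_le _ zero_le_one _

/-- successor cuts -/
theorem exists_cut {K : Type} [LinearOrder K] [WellFoundedLT K] (a : K) :
    ∃ c : WithTop K, ∀ x : K, (x : WithTop K) < c ↔ x ≤ a := by
  by_cases h : ({x | a < x} : Set K).Nonempty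
  · refine ⟨((wellFounded_lt (α := K)).min {x | a < x} h : K), fun x => ?_⟩
    rw [WithTop.coe_lt_coe]
    constructor
    · intro hx
      by_contra hcon
      push Not at hcon
      exact (wellFounded_lt (α := K)).not_lt_min {x | a < x} hcon hx
    · intro hx
      exact hx.trans_lt ((wellFounded_lt (α := K)).min_mem {x | a < x} h)
  · refine ⟨⊤, fun x => ?_⟩
    constructor
    · intro _
      by_contra hcon
      push Not at hcon
      exact h ⟨x, hcon⟩
    · intro _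
      exact WithTop.coe_lt_top x

theorem exists_round {K : Type} [LinearOrder K] [WellFoundedLT K] (P : Set K) (c : WithTop K) :
    ∃ c' : WithTop K, (c' = ⊤ ∨ ∃ a ∈ P, c' = (a : WithTop K)) ∧
      ∀ a ∈ P, ((a : WithTop K) < c ↔ (a : WithTop K) < c') := by
  by_cases h : ({x | x ∈ P ∧ c ≤ (x : WithTop K)} : Set K).Nonempty
  · set m := (wellFounded_lt (α := K)).min {x | x ∈ P ∧ c ≤ (x : WithTop K)} h with hm
    have hmm : m ∈ P ∧ c ≤ (m : WithTop K) :=
      (wellFounded_lt (α := K)).min_mem {x | x ∈ P ∧ c ≤ (x : WithTop K)} h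
    refine ⟨m, Or.inr ⟨m, hmm.1, rfl⟩, fun a ha => ?_⟩
    constructor
    · intro hac
      exact hac.trans_le hmm.2
    · intro ham
      by_contra hcon
      push Not at hcon
      exact (wellFounded_lt (α := K)).not_lt_min {x | x ∈ P ∧ c ≤ (x : WithTop K)}
        (x := a) ⟨ha, hcon⟩ (WithTop.coe_lt_coe.1 ham)
  · refine ⟨⊤, Or.inl rfl, fun a ha => ?_⟩
    constructor
    · intro _
      exact WithTop.coe_lt_top a
    · intro _
      by_contra hcon
      push Not at hcon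
      exact h ⟨a, ha, hcon⟩

theorem exists_unit [WellFoundedLT I] [WellFoundedLT J] (p : I × J) :
    ∃ e : XX 𝕜 I J, (e : EE 𝕜 I J) p = 1 ∧ ∀ q, q ≠ p → (e : EE 𝕜 I J) q = 0 := by
  obtain ⟨a, b⟩ := p
  obtain ⟨c, hc⟩ := exists_cut a
  obtain ⟨d, hd⟩ := exists_cut b
  refine ⟨rhoX 𝕜 (c, d) - rhoX 𝕜 ((a : WithTop I), d) - rhoX 𝕜 (c, (b : WithTop J)) +
    rhoX 𝕜 ((a : WithTop I), (b : WithTop J)), ?_, ?_⟩
  · show rhoFun 𝕜 (c, d) (a, b) - rhoFun 𝕜 ((a : WithTop I), d) (a, b) -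
      rhoFun 𝕜 (c, (b : WithTop J)) (a, b) +
      rhoFun 𝕜 ((a : WithTop I), (b : WithTop J)) (a, b) = 1
    rw [rhoFun_one 𝕜 (c, d) (a, b) ⟨(hc a).2 le_rfl, (hd b).2 le_rfl⟩,
      rhoFun_zero 𝕜 _ _ (fun h => lt_irrefl _ h.1), rhoFun_zero 𝕜 _ _ (fun h => lt_irrefl _ h.2),
      rhoFun_zero 𝕜 _ _ (fun h => lt_irrefl _ h.2)]
    simp
  · rintro ⟨x, y⟩ hq
    show rhoFun 𝕜 (c, d) (x, y) - rhoFun 𝕜 ((a : WithTop I), d) (x, y) -
      rhoFun 𝕜 (c, (b : WithTop J)) (x, y) +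
      rhoFun 𝕜 ((a : WithTop I), (b : WithTop J)) (x, y) = 0
    unfold rhoFun
    simp only [hc, hd, WithTop.coe_lt_coe]
    by_cases h1 : x ≤ a <;> by_cases h2 : y ≤ b <;> by_cases h3 : x < a <;>
      by_cases h4 : y < b <;> simp [h1, h2, h3, h4] <;>
      first
        | exact absurd h3.le h1
        | exact absurd h4.le h2
        | exact hq (Prod.ext (le_antisymm h1 (not_lt.1 h3)) (le_antisymm h2 (not_lt.1 h4)))

end Pool.Agent.Lib.MP_132384_an
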